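import Pool.Agent.N783.PF.Lat
import Pool.Agent.N348.PQ.MAJ

/-!
# Project PF (helper783), part MAJ (helper707, after helper348): the majorant of the form of a
lattice over a number field
-/

set_option autoImplicit false

open Polynomial NumberField

namespace Pool.Agent.N707.PF.MAJ

open Pool.Agent.N783.PF
open Pool.Agent.N348.PQ.MAJ (cs geo_half)

variable {F L : Type} [Field F] [NumberField F] [Field L] [NumberField L] [Algebra F L]
  {g B : ℕ} {f : (𝓞 F)[X]} {θ : L}

theorem root_bd (hf : Ht g B f) (σ : F →+* ℂ) {t : ℂ} (ht : ((fF f).map σ).eval t = 0) :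
    ‖t‖ ≤ 2 * B := by
  by_contra hcon
  push Not at hcon
  have hB : (0 : ℝ) ≤ B := Nat.cast_nonneg B
  have hr : 0 < ‖t‖ := by linarith
  have hdeg : ((fF f).map σ).natDegree = 2 * g + 1 := by
    rw [(hf.mon.map _).natDegree_map, hf.mon.natDegree_map, hf.deg]
  have h1 : t ^ (2 * g + 1) = -∑ j ∈ Finset.range (2 * g + 1), σ (f.coeff j : F) * t ^ j := by
    rw [eval_eq_sum_range, hdeg, Finset.sum_range_succ] at ht
    simp only [coeff_map] at ht
    have h2 : f.coeff (2 * g + 1) = 1 := by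
      have := hf.mon.coeff_natDegree
      rwa [hf.deg] at this
    rw [h2, map_one, map_one, one_mul] at ht
    exact eq_neg_of_add_eq_zero_right ht
  have h2 : ‖t‖ ^ (2 * g + 1) ≤ ∑ j ∈ Finset.range (2 * g + 1),
      ‖t‖ ^ (2 * g + 1) * (1 / 2) ^ (2 * g + 1 - j) := by
    have h0 : ‖t‖ ^ (2 * g + 1) =
        ‖∑ j ∈ Finset.range (2 * g + 1), σ (f.coeff j : F) * t ^ j‖ := by
      rw [← norm_pow, h1, norm_neg]
    rw [h0]
    refine (norm_sum_le _ _).trans (Finset.sum_le_sum fun j hj => ?_)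
    rw [Finset.mem_range] at hj
    rw [← h0, norm_mul, norm_pow]
    have h3 : ‖σ (f.coeff j : F)‖ ≤ (B : ℝ) ^ (2 * g + 1 - j) := hf.ht j (by omega) σ
    have h5 : (B : ℝ) ^ (2 * g + 1 - j) ≤ (‖t‖ * (1 / 2)) ^ (2 * g + 1 - j) :=
      pow_le_pow_left₀ hB (by linarith) _
    calc ‖σ (f.coeff j : F)‖ * ‖t‖ ^ j
        ≤ (‖t‖ * (1 / 2)) ^ (2 * g + 1 - j) * ‖t‖ ^ j :=
          mul_le_mul_of_nonneg_right (h3.trans h5) (by positivity)
      _ = ‖t‖ ^ (2 * g + 1 - j + j) * (1 / 2) ^ (2 * g + 1 - j) := by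
          rw [mul_pow, pow_add]
          ring
      _ = _ := by rw [Nat.sub_add_cancel hj.le]
  rw [← Finset.mul_sum, geo_half] at h2
  have h3 : 0 < ‖t‖ ^ (2 * g + 1) := by positivity
  have h4 : (0 : ℝ) < (1 / 2) ^ (2 * g + 1) := by positivity
  nlinarith

/-- the embeddings over a given embedding -/
structure Em (g : ℕ) (f : (𝓞 F)[X]) (θ : L) (σ : F →+* ℂ) (E : Fin (2 * g + 1) → (L →+* ℂ)) :
    Prop where
  inj : Function.Injective E
  com : ∀ k (a : F), E k (algebraMap F L a) = σ a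

theorem exists_emb (hG : IsGen g f θ) (σ : F →+* ℂ) :
    ∃ E : Fin (2 * g + 1) → (L →+* ℂ), Em g f θ σ E := by
  let _ : Algebra F ℂ := σ.toAlgebra
  have : FiniteDimensional F L := FiniteDimensional.of_finrank_pos (by rw [hG.rank]; omega)
  have hc : Fintype.card (L →ₐ[F] ℂ) = 2 * g + 1 := by
    rw [AlgHom.card, hG.rank]
  let e := (Fintype.equivFinOfCardEq hc).symm
  refine ⟨fun k => (e k : L →ₐ[F] ℂ).toRingHom, ?_, fun k a => ?_⟩
  · intro k l h
    apply e.injective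
    refine AlgHom.ext fun x => ?_
    exact RingHom.congr_fun h x
  · exact (e k).commutes a

variable {σ : F →+* ℂ} {E : Fin (2 * g + 1) → (L →+* ℂ)}

theorem Em.th (hG : IsGen g f θ) (hE : Em g f θ σ E) : Function.Injective fun k => E k θ := by
  intro k l h
  have h' : E k θ = E l θ := h
  apply hE.inj
  refine RingHom.ext fun x => ?_
  obtain ⟨c, rfl⟩ := hG.gen x
  simp only [map_sum, map_mul, map_pow, hE.com, h']

theorem Em.eval (hE : Em g f θ σ E) (Q : F[X]) (k : Fin (2 * g + 1)) :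
    E k (aeval θ Q) = (Q.map σ).eval (E k θ) := by
  have h1 : (E k).comp (algebraMap F L) = σ := RingHom.ext fun a => hE.com k a
  rw [aeval_def, hom_eval₂, h1, eval_map]

theorem euler (hG : IsGen g f θ) (hE : Em g f θ σ E) (x : L) :
    σ (hG.top x) = ∑ k, E k x / ∏ l ∈ Finset.univ.erase k, (E k θ - E l θ) := by
  have hinj : Set.InjOn (fun k => E k θ)
      ((Finset.univ : Finset (Fin (2 * g + 1))) : Set (Fin (2 * g + 1))) :=
    (hE.th hG).injOn
  obtain ⟨P, hP⟩ : ∃ P : ℂ[X], P =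
      ∑ i : Fin (2 * g + 1), C (σ (hG.basis.repr x i)) * X ^ (i : ℕ) := ⟨_, rfl⟩
  have hdeg : P.degree < ((Finset.univ : Finset (Fin (2 * g + 1))).card : ℕ) := by
    rw [Finset.card_fin, hP]
    exact degree_sum_fin_lt _
  have hco : P.coeff (2 * g) = σ (hG.top x) := by
    rw [hP, finsetSum_coeff, Finset.sum_eq_single (Fin.last (2 * g))]
    · rw [coeff_C_mul, coeff_X_pow, Fin.val_last, if_pos rfl, mul_one]
      rfl
    · intro i _ hi
      rw [coeff_C_mul, coeff_X_pow, if_neg, mul_zero]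
      intro h
      exact hi (Fin.ext (by rw [Fin.val_last]; exact h.symm))
    · intro h
      exact absurd (Finset.mem_univ _) h
  have hev : ∀ k, P.eval (E k θ) = E k x := by
    intro k
    conv_rhs => rw [← hG.basis.sum_repr x]
    rw [hP, eval_finsetSum, map_sum]
    refine Finset.sum_congr rfl fun i _ => ?_
    rw [eval_mul, eval_C, eval_pow, eval_X, hG.basis_apply, Algebra.smul_def, map_mul,
      hE.com, map_pow]
  have h1 := Lagrange.coeff_eq_sum hinj hdeg
  rw [Finset.card_fin, Nat.add_sub_cancel, hco] at h1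
  rw [h1]
  exact Finset.sum_congr rfl fun k _ => by rw [hev]

theorem nodal (hG : IsGen g f θ) (hE : Em g f θ σ E) :
    (fF f).map σ = Lagrange.nodal Finset.univ fun k => E k θ := by
  have hinj : Set.InjOn (fun k => E k θ)
      ((Finset.univ : Finset (Fin (2 * g + 1))) : Set (Fin (2 * g + 1))) :=
    (hE.th hG).injOn
  have hmon : ((fF f).map σ).Monic := (hG.mon.map _).map _
  have hdeg : ((fF f).map σ).natDegree = 2 * g + 1 := by
    rw [(hG.mon.map _).natDegree_map, hG.mon.natDegree_map, hG.deg]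
  have hd1 : ((fF f).map σ).degree = ((2 * g + 1 : ℕ) : WithBot ℕ) := by
    rw [degree_eq_natDegree hmon.ne_zero, hdeg]
  have hd2 : (Lagrange.nodal (Finset.univ : Finset (Fin (2 * g + 1))) fun k => E k θ).degree =
      ((2 * g + 1 : ℕ) : WithBot ℕ) := by
    rw [Lagrange.degree_nodal, Finset.card_fin]
  refine eq_of_degree_sub_lt_of_eval_index_eq _ hinj ?_ fun k _ => ?_
  · rw [Finset.card_fin]
    refine lt_of_lt_of_eq (degree_sub_lt_left (hd1.trans hd2.symm) hmon.ne_zero ?_) hd1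
    rw [hmon.leadingCoeff, (Lagrange.nodal_monic).leadingCoeff]
  · have h1 := Lagrange.eval_nodal_at_node (v := fun k => E k θ) (Finset.mem_univ k)
    exact Eq.trans (by rw [← hE.eval, hG.root, map_zero]) h1.symm

theorem deriv (hG : IsGen g f θ) (hE : Em g f θ σ E) (k : Fin (2 * g + 1)) :
    E k (aeval θ (derivative (fF f))) = ∏ l ∈ Finset.univ.erase k, (E k θ - E l θ) := by
  have h1 := Lagrange.eval_nodal_derivative_eval_node_eq (v := fun k => E k θ) (Finset.mem_univ k)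
  rw [Lagrange.eval_nodal] at h1
  rw [hE.eval, ← derivative_map, nodal hG hE]
  exact h1

theorem HH_term (f : (𝓞 F)[X]) (θ α x : L) (τ : L →+* ℂ) :
    0 ≤ ‖τ x‖ ^ 2 / ‖τ (α * aeval θ (derivative (fF f)))‖ := by positivity

theorem sum_le_HH (hE : Em g f θ σ E) (α x : L) :
    ∑ k, ‖E k x‖ ^ 2 / ‖E k (α * aeval θ (derivative (fF f)))‖ ≤ HH f θ α x := by
  have h1 : ∑ k, ‖E k x‖ ^ 2 / ‖E k (α * aeval θ (derivative (fF f)))‖ =
      ∑ τ ∈ Finset.univ.map ⟨E, hE.inj⟩, ‖τ x‖ ^ 2 / ‖τ (α * aeval θ (derivative (fF f)))‖ := by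
    rw [Finset.sum_map]
    rfl
  rw [h1]
  exact Finset.sum_le_sum_of_subset_of_nonneg (Finset.subset_univ _)
    fun τ _ _ => HH_term f θ α x τ

theorem maj : S_MAJ := by
  intro g B F L _ _ _ _ _ f θ hg hG hf
  have hroot : ∀ {σ : F →+* ℂ} {E : Fin (2 * g + 1) → (L →+* ℂ)}, Em g f θ σ E → ∀ k,
      ‖E k θ‖ ≤ 2 * B := by
    intro σ E hE k
    refine root_bd hf σ ?_
    rw [← hE.eval, hG.root, map_zero]
  have hB : (0 : ℝ) ≤ 2 * B := by positivity
  refine ⟨fun α hα σ m x y => ?_, fun σ j => ?_⟩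
  · obtain ⟨E, hE⟩ := exists_emb hG σ
    obtain ⟨d, hd⟩ : ∃ d : Fin (2 * g + 1) → ℂ,
        ∀ k, d k = ∏ l ∈ Finset.univ.erase k, (E k θ - E l θ) := ⟨_, fun _ => rfl⟩
    have hd' : ∀ k, E k (α * aeval θ (derivative (fF f))) = E k α * d k := fun k => by
      rw [map_mul, deriv hG hE, hd]
    have h1 : σ (hG.top (θ ^ m * (x * y) / α)) =
        ∑ k, (E k θ ^ m / (E k α * d k)) * E k x * E k y := by
      rw [euler hG hE]
      refine Finset.sum_congr rfl fun k _ => ?_
      rw [← hd, map_div₀, map_mul, map_mul, map_pow]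
      rw [div_div, div_mul_eq_mul_div, div_mul_eq_mul_div, mul_assoc]
    have h2 := cs (fun k => ‖E k α * d k‖⁻¹) (fun k => inv_nonneg.2 (norm_nonneg _))
      ((2 * B : ℝ) ^ m) (fun k => E k θ ^ m / (E k α * d k))
      (fun k => by
        rw [norm_div, norm_pow, div_eq_mul_inv]
        exact mul_le_mul_of_nonneg_right (pow_le_pow_left₀ (norm_nonneg _) (hroot hE k) m)
          (inv_nonneg.2 (norm_nonneg _)))
      (fun k => E k x) (fun k => E k y)
    have h3 : ∀ z : L, ∑ k, ‖E k α * d k‖⁻¹ * ‖E k z‖ ^ 2 ≤ HH f θ α z := by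
      intro z
      refine le_trans (le_of_eq ?_) (sum_le_HH hE α z)
      refine Finset.sum_congr rfl fun k _ => ?_
      rw [hd', div_eq_inv_mul]
    rw [h1]
    refine h2.trans ?_
    rw [← pow_mul, mul_comm m 2]
    refine mul_le_mul_of_nonneg_left ?_ (pow_nonneg hB _)
    have h4 : ∀ z : L, 0 ≤ ∑ k, ‖E k α * d k‖⁻¹ * ‖E k z‖ ^ 2 := fun z =>
      Finset.sum_nonneg fun k _ => mul_nonneg (inv_nonneg.2 (norm_nonneg _)) (sq_nonneg _)
    exact mul_le_mul (h3 x) (h3 y) (h4 y) ((h4 x).trans (h3 x))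
  · obtain ⟨E, hE⟩ := exists_emb hG σ
    obtain ⟨d, hd⟩ : ∃ d : Fin (2 * g + 1) → ℂ,
        ∀ k, d k = ∏ l ∈ Finset.univ.erase k, (E k θ - E l θ) := ⟨_, fun _ => rfl⟩
    have hd0 : ∀ k, d k ≠ 0 := by
      intro k
      rw [hd, Finset.prod_ne_zero_iff]
      intro l hl h0
      exact (Finset.mem_erase.1 hl).1 (hE.th hG (sub_eq_zero.1 h0)).symm
    have hd' : ∀ k, E k (1 * aeval θ (derivative (fF f))) = d k := fun k => by
      rw [one_mul, deriv hG hE, hd]
    have h2 : ‖σ j‖ ^ 2 / ‖d 0‖ ≤ HH f θ 1 (algebraMap F L j) := by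
      refine le_trans ?_ (sum_le_HH hE 1 (algebraMap F L j))
      have h3 := Finset.single_le_sum (f := fun k : Fin (2 * g + 1) =>
          ‖E k (algebraMap F L j)‖ ^ 2 / ‖E k (1 * aeval θ (derivative (fF f)))‖)
        (fun k _ => HH_term f θ 1 _ (E k)) (Finset.mem_univ 0)
      refine le_trans (le_of_eq ?_) h3
      rw [hd', hE.com]
    have h3 : ‖d 0‖ ≤ (4 * B : ℝ) ^ (2 * g) := by
      rw [hd, norm_prod]
      calc ∏ l ∈ Finset.univ.erase 0, ‖E 0 θ - E l θ‖
          ≤ ∏ l ∈ (Finset.univ : Finset (Fin (2 * g + 1))).erase 0, (4 * B : ℝ) := by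
            refine Finset.prod_le_prod (fun l _ => norm_nonneg _) fun l _ => ?_
            refine (norm_sub_le _ _).trans ?_
            have := hroot hE 0
            have := hroot hE l
            linarith
        _ = _ := by
            rw [Finset.prod_const, Finset.card_erase_of_mem (Finset.mem_univ _),
              Finset.card_fin, Nat.add_sub_cancel]
    have h4 : 0 < ‖d 0‖ := norm_pos_iff.2 (hd0 0)
    calc ‖σ j‖ ^ 2 = ‖d 0‖ * (‖σ j‖ ^ 2 / ‖d 0‖) := by
          rw [mul_div_cancel₀ _ h4.ne']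
      _ ≤ (4 * B : ℝ) ^ (2 * g) * HH f θ 1 (algebraMap F L j) :=
          mul_le_mul h3 h2 (by positivity) (by positivity)

end Pool.Agent.N707.PF.MAJ
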